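import Pool.Agent.Helper47.EB.Num

set_option autoImplicit false

open Set Filter
open scoped Real Topology

namespace Pool.Agent.Helper32.EB

open Pool.Agent.Helper47.EB (ent)

/-- the terms of the binomial expansion of `(k + N)^(k + N)` increase up to the index `k` -/
theorem up32 {k N j : ℕ} (hj : j + 1 ≤ k) (_hN : 1 ≤ N) :
    (k + N).choose j * k ^ j * N ^ (k + N - j) ≤ (k + N).choose (j + 1) * k ^ (j + 1) * N ^ (k + N - (j + 1)) := by
  have h1 := Nat.choose_succ_right_eq (k + N) j
  have h2 : k + N - j = (k + N - (j + 1)) + 1 := by omega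
  have h3 : N * (j + 1) ≤ (k + N - j) * k := by
    have : N ≤ k + N - j := by omega
    calc N * (j + 1) ≤ N * k := by gcongr
      _ ≤ (k + N - j) * k := by gcongr
  refine le_of_mul_le_mul_left (a := j + 1) ?_ (Nat.succ_pos j)
  calc (j + 1) * ((k + N).choose j * k ^ j * N ^ (k + N - j))
      = (k + N).choose j * k ^ j * N ^ (k + N - (j + 1)) * (N * (j + 1)) := by
        rw [h2]; ring
    _ ≤ (k + N).choose j * k ^ j * N ^ (k + N - (j + 1)) * ((k + N - j) * k) := by gcongr
    _ = ((k + N).choose j * (k + N - j)) * k ^ (j + 1) * N ^ (k + N - (j + 1)) := by ring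
    _ = ((k + N).choose (j + 1) * (j + 1)) * k ^ (j + 1) * N ^ (k + N - (j + 1)) := by rw [h1]
    _ = (j + 1) * ((k + N).choose (j + 1) * k ^ (j + 1) * N ^ (k + N - (j + 1))) := by ring

/-- and they decrease from the index `k` on -/
theorem down32 {k N j : ℕ} (hj : k ≤ j) (hjn : j + 1 ≤ k + N) :
    (k + N).choose (j + 1) * k ^ (j + 1) * N ^ (k + N - (j + 1)) ≤ (k + N).choose j * k ^ j * N ^ (k + N - j) := by
  have h1 := Nat.choose_succ_right_eq (k + N) j
  have h2 : k + N - j = (k + N - (j + 1)) + 1 := by omega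
  have h3 : (k + N - j) * k ≤ N * (j + 1) := by
    have : k + N - j ≤ N := by omega
    exact Nat.mul_le_mul this (by omega)
  refine le_of_mul_le_mul_left (a := j + 1) ?_ (Nat.succ_pos j)
  calc (j + 1) * ((k + N).choose (j + 1) * k ^ (j + 1) * N ^ (k + N - (j + 1)))
      = ((k + N).choose (j + 1) * (j + 1)) * k ^ (j + 1) * N ^ (k + N - (j + 1)) := by ring
    _ = ((k + N).choose j * (k + N - j)) * k ^ (j + 1) * N ^ (k + N - (j + 1)) := by rw [h1]
    _ = (k + N).choose j * k ^ j * N ^ (k + N - (j + 1)) * ((k + N - j) * k) := by ring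
    _ ≤ (k + N).choose j * k ^ j * N ^ (k + N - (j + 1)) * (N * (j + 1)) := by gcongr
    _ = (j + 1) * ((k + N).choose j * k ^ j * N ^ (k + N - j)) := by
        rw [h2]; ring

theorem max32 {k N j : ℕ} (hN : 1 ≤ N) (hj : j ≤ k + N) :
    (k + N).choose j * k ^ j * N ^ (k + N - j) ≤ (k + N).choose k * k ^ k * N ^ (k + N - k) := by
  rcases le_total j k with h | h
  · induction h using Nat.decreasingInduction with
    | of_succ m hm ih =>
      exact (up32 (by omega) hN).trans (ih (by omega))
    | self => exact le_rfl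
  · induction j, h using Nat.le_induction with
    | base => exact le_rfl
    | succ m hm ih => exact (down32 hm hj).trans (ih (by omega))

theorem sum32 {k N : ℕ} (hN : 1 ≤ N) :
    (k + N) ^ (k + N) ≤ (k + N + 1) * ((k + N).choose k * k ^ k * N ^ N) := by
  rw [add_pow k N (k + N)]
  calc ∑ m ∈ Finset.range (k + N + 1), k ^ m * N ^ (k + N - m) * (k + N).choose m
      ≤ ∑ m ∈ Finset.range (k + N + 1), (k + N).choose k * k ^ k * N ^ N := by
        refine Finset.sum_le_sum fun m hm => ?_
        have h := max32 (k := k) hN (j := m) (by have := Finset.mem_range.1 hm; omega)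
        have h2 : k + N - k = N := by omega
        rw [h2] at h
        calc _ = (k + N).choose m * k ^ m * N ^ (k + N - m) := by ring
          _ ≤ _ := h
    _ = (k + N + 1) * ((k + N).choose k * k ^ k * N ^ N) := by simp

theorem choose_lower {k N : ℕ} (hk : 1 ≤ k) (hN : 1 ≤ N) :
    Real.exp (N * ent ((k : ℝ) / N)) ≤ ((k : ℝ) + N + 1) * (Nat.choose (k + N) k : ℝ) := by
  have hk' : (0 : ℝ) < k := by exact_mod_cast hk
  have hN' : (0 : ℝ) < N := by exact_mod_cast hN
  have hs : ((k : ℝ) + N) ^ (k + N) ≤ ((k : ℝ) + N + 1) * ((Nat.choose (k + N) k : ℝ) * k ^ k * N ^ N) := by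
    exact_mod_cast sum32 (k := k) hN
  have h1 : (N : ℝ) * ent ((k : ℝ) / N) =
      (k + N : ℕ) * Real.log (k + N) - ((k : ℕ) * Real.log k + (N : ℕ) * Real.log N) := by
    have h2 : 1 + (k : ℝ) / N = (k + N) / N := by field_simp; ring
    rw [ent, h2, Real.log_div (by positivity) (by positivity), Real.log_div (by positivity) (by positivity)]
    push_cast
    field_simp
    ring
  have h3 : (0 : ℝ) < k ^ k * N ^ N := by positivity
  have h4 : Real.exp (N * ent ((k : ℝ) / N)) = ((k : ℝ) + N) ^ (k + N) / (k ^ k * N ^ N) := by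
    rw [h1, Real.exp_sub, Real.exp_add, Real.exp_nat_mul, Real.exp_nat_mul, Real.exp_nat_mul,
      Real.exp_log (by positivity), Real.exp_log hk', Real.exp_log hN']
  rw [h4, div_le_iff₀ h3]
  calc _ ≤ _ := hs
    _ = _ := by ring

theorem hasDeriv32 {x : ℝ} (hx : 0 < x) : HasDerivAt ent (Real.log (1 + x) - Real.log x) x := by
  have h1 : HasDerivAt (fun x : ℝ => 1 + x) 1 x := by simpa using (hasDerivAt_id x).const_add 1
  have h2 := h1.mul (h1.log (by positivity))
  have h3 := (hasDerivAt_id x).mul ((hasDerivAt_id x).log (by simpa using hx.ne'))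
  refine (h2.sub h3).congr_deriv ?_
  have h4 : (1 + x) * (1 / (1 + x)) = 1 := by field_simp
  have h5 : x * (1 / x) = 1 := by field_simp
  simp only [id]
  rw [h4, h5]
  ring

theorem anti32 {x y : ℝ} (hx : 0 < x) (hxy : x ≤ y) :
    Real.log (1 + y) - Real.log y ≤ Real.log (1 + x) - Real.log x := by
  have hy : 0 < y := hx.trans_le hxy
  rw [← Real.log_div (by positivity) (by positivity), ← Real.log_div (by positivity) (by positivity)]
  refine Real.log_le_log (by positivity) ?_
  rw [div_le_div_iff₀ hy hx]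
  nlinarith

theorem ent_between {a b r c x : ℝ} (ha : 0 < a) (hax : a ≤ x) (hxb : x ≤ b)
    (h1 : c ≤ ent a + a * Real.log r) (h2 : c ≤ ent b + b * Real.log r) :
    c ≤ ent x + x * Real.log r := by
  have hd : ∀ y : ℝ, 0 < y → HasDerivAt (fun y => ent y + y * Real.log r)
      (Real.log (1 + y) - Real.log y + Real.log r) y := fun y hy =>
    (hasDeriv32 hy).add (by simpa using (hasDerivAt_id y).mul_const (Real.log r))
  have hc : ConcaveOn ℝ (Ioi (0 : ℝ)) (fun y => ent y + y * Real.log r) := by
    refine AntitoneOn.concaveOn_of_deriv (convex_Ioi 0)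
      (fun y hy => (hd y hy).continuousAt.continuousWithinAt) ?_ ?_
    · rw [interior_Ioi]
      exact fun y hy => (hd y hy).differentiableAt.differentiableWithinAt
    · rw [interior_Ioi]
      intro y hy z hz hyz
      rw [(hd y hy).deriv, (hd z hz).deriv]
      have := anti32 (show (0 : ℝ) < y from hy) hyz
      linarith
  have h3 := hc.min_le_of_mem_Icc (x := a) (y := b) (z := x) ha (ha.trans_le (hax.trans hxb)) ⟨hax, hxb⟩
  exact (le_min h1 h2).trans h3

theorem ent_mono {x y : ℝ} (hx : 0 < x) (hxy : x ≤ y) : ent x ≤ ent y := by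
  have hm : MonotoneOn ent (Ioi (0 : ℝ)) := by
    refine monotoneOn_of_deriv_nonneg (convex_Ioi 0)
      (fun y hy => (hasDeriv32 hy).continuousAt.continuousWithinAt) ?_ ?_
    · rw [interior_Ioi]
      exact fun y hy => (hasDeriv32 hy).differentiableAt.differentiableWithinAt
    · rw [interior_Ioi]
      intro y hy
      rw [(hasDeriv32 hy).deriv]
      have : Real.log y ≤ Real.log (1 + y) := Real.log_le_log hy (by linarith)
      linarith
  exact hm hx (hx.trans_le hxy) hxy

end Pool.Agent.Helper32.EB
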